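import Pool.Agent.W201.NT.StmG

/-! # Convexity of the discrete energy with the constant `1/4 - ε` -/

namespace Pool.Agent.W696.NT.ES

open Metric Set Pool.Agent.Helper381 Pool.Agent.Helper381.MetCoef

theorem main : Pool.Agent.W201.NT.S_ES := by
  intro E _ _ g ρ A ε hρ hA hsmall n hn a b h0 ha hb ha' hb'
  have hn' : (0 : ℝ) < n := by exact_mod_cast hn
  have hρ0 : 0 < ρ := by
    have := ha 0 (Nat.zero_le _)
    exact (dist_nonneg).trans_lt (mem_ball.mp this)
  have hε : 0 < ε := by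
    have h1 := g.Cpos
    have h2 := g.lampos
    have h3 : 0 < g.C * ρ / 4 := by positivity
    have h4 : 0 ≤ g.C * A ^ 2 + g.C * A / 2 := by positivity
    have h5 : 0 < ε * g.lam := by linarith
    exact pos_of_mul_pos_left h5 h2.le
  have h00 : g.x₀ ∈ ball g.x₀ g.r := mem_ball_self g.rpos
  let δ : ℕ → E := fun i => b i - a i
  let η : ℕ → E := fun i => (b (i + 1) - a (i + 1)) - (b i - a i)
  let β : ℕ → E := fun i => (1 / 2 : ℝ) • (a (i + 1) + b (i + 1)) - (1 / 2 : ℝ) • (a i + b i)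
  have e1 : ∀ i, β i - (1 / 2 : ℝ) • η i = a (i + 1) - a i := by
    intro i; simp only [β, η]; module
  have e2 : ∀ i, β i + (1 / 2 : ℝ) • η i = b (i + 1) - b i := by
    intro i; simp only [β, η]; module
  have hβ : ∀ i < n, ‖β i‖ ≤ A / n := by
    intro i hi
    have : β i = (1 / 2 : ℝ) • ((a (i + 1) - a i) + (b (i + 1) - b i)) := by
      simp only [β]; module
    rw [this, norm_smul]
    have h1 := norm_add_le (a (i + 1) - a i) (b (i + 1) - b i)
    have h2 := ha' i hi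
    have h3 := hb' i hi
    have : ‖(1 / 2 : ℝ)‖ = 1 / 2 := by norm_num
    rw [this]
    linarith
  set err : ℕ → ℝ := fun i => g.C * ‖a i - b i‖ ^ 2 * ‖β i‖ ^ 2 +
    g.C / 2 * ‖a i - b i‖ * ‖β i‖ * ‖η i‖ + g.C * ρ / 4 * ‖η i‖ ^ 2 with herr
  have hstep : ∀ i ∈ Finset.range n, g.G ((1 / 2 : ℝ) • (a i + b i)) (β i) (β i) ≤
      (g.G (a i) (a (i + 1) - a i) (a (i + 1) - a i) +
        g.G (b i) (b (i + 1) - b i) (b (i + 1) - b i)) / 2 -
        1 / 4 * g.G g.x₀ (η i) (η i) + err i := by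
    intro i hi
    rw [Finset.mem_range] at hi
    have := g.step hρ (ha i hi.le) (hb i hi.le) (β i) (η i)
    rw [e1, e2, abs_le] at this
    simp only [herr]
    linarith [this.1]
  have hsum := Finset.sum_le_sum hstep
  have hδ : ∀ i, δ i = ∑ j ∈ Finset.range i, η j := by
    intro i
    have : ∑ j ∈ Finset.range i, η j = ∑ j ∈ Finset.range i, (δ (j + 1) - δ j) := rfl
    rw [this, Finset.sum_range_sub]
    simp [δ, h0]
  set D := ∑ j ∈ Finset.range n, ‖η j‖ with hD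
  have hδn : ∀ i < n, ‖a i - b i‖ ≤ D := by
    intro i hi
    have : ‖a i - b i‖ = ‖δ i‖ := by simp only [δ]; rw [norm_sub_rev]
    rw [this, hδ]
    refine (norm_sum_le _ _).trans ?_
    exact Finset.sum_le_sum_of_subset_of_nonneg (Finset.range_mono hi.le)
      (fun _ _ _ => norm_nonneg _)
  have hD0 : 0 ≤ D := Finset.sum_nonneg fun _ _ => norm_nonneg _
  have herrb := g.err_bound (ρ := ρ) hA hn D (fun i => ‖a i - b i‖) (fun i => ‖β i‖)
    (fun i => ‖η i‖) (fun _ _ => norm_nonneg _) (fun _ _ => norm_nonneg _)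
    (fun _ _ => norm_nonneg _) hδn hD0 (sq_sum_le n _) le_rfl hβ
  have hH0 : 0 ≤ (n : ℝ) * ∑ i ∈ Finset.range n, ‖η i‖ ^ 2 := by positivity
  have hX : g.lam * (n * ∑ i ∈ Finset.range n, ‖η i‖ ^ 2) ≤
      n * ∑ i ∈ Finset.range n, g.G g.x₀ (η i) (η i) := by
    have : g.lam * (n * ∑ i ∈ Finset.range n, ‖η i‖ ^ 2) =
        n * ∑ i ∈ Finset.range n, g.lam * ‖η i‖ ^ 2 := by
      rw [← Finset.mul_sum]; ring
    rw [this]
    apply mul_le_mul_of_nonneg_left _ hn'.le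
    exact Finset.sum_le_sum fun i _ => g.lower _ h00 _
  have hE : g.energy n (fun i => (1 / 2 : ℝ) • (a i + b i)) =
      n * ∑ i ∈ Finset.range n, g.G ((1 / 2 : ℝ) • (a i + b i)) (β i) (β i) := rfl
  have hEa : g.energy n a = n * ∑ i ∈ Finset.range n,
      g.G (a i) (a (i + 1) - a i) (a (i + 1) - a i) := rfl
  have hEb : g.energy n b = n * ∑ i ∈ Finset.range n,
      g.G (b i) (b (i + 1) - b i) (b (i + 1) - b i) := rfl
  have hsum' : ∑ i ∈ Finset.range n, ((g.G (a i) (a (i + 1) - a i) (a (i + 1) - a i) +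
        g.G (b i) (b (i + 1) - b i) (b (i + 1) - b i)) / 2 -
        1 / 4 * g.G g.x₀ (η i) (η i) + err i) =
      (∑ i ∈ Finset.range n, g.G (a i) (a (i + 1) - a i) (a (i + 1) - a i) +
        ∑ i ∈ Finset.range n, g.G (b i) (b (i + 1) - b i) (b (i + 1) - b i)) / 2 -
        1 / 4 * ∑ i ∈ Finset.range n, g.G g.x₀ (η i) (η i) + ∑ i ∈ Finset.range n, err i := by
    rw [Finset.sum_add_distrib, Finset.sum_sub_distrib, ← Finset.sum_div,
      Finset.sum_add_distrib, ← Finset.mul_sum]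
  rw [hsum'] at hsum
  have hm := mul_le_mul_of_nonneg_left hsum hn'.le
  have h9 := mul_le_mul_of_nonneg_right hsmall hH0
  have herrb' : n * ∑ i ∈ Finset.range n, err i ≤
    (g.C * A ^ 2 + g.C * A / 2 + g.C * ρ / 4) * (n * ∑ i ∈ Finset.range n, ‖η i‖ ^ 2) := herrb
  have h10 : ε * (g.lam * (n * ∑ i ∈ Finset.range n, ‖η i‖ ^ 2)) ≤
      ε * (n * ∑ i ∈ Finset.range n, g.G g.x₀ (η i) (η i)) :=
    mul_le_mul_of_nonneg_left hX hε.le
  have h11 : n * ∑ i ∈ Finset.range n, err i ≤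
      ε * (n * ∑ i ∈ Finset.range n, g.G g.x₀ (η i) (η i)) := by
    refine herrb'.trans (h9.trans ?_)
    rw [mul_assoc]
    exact h10
  show g.energy n (fun i => (1 / 2 : ℝ) • (a i + b i)) ≤ (g.energy n a + g.energy n b) / 2 -
      (1 / 4 - ε) * (n * ∑ i ∈ Finset.range n, g.G g.x₀ (η i) (η i))
  rw [hE, hEa, hEb]
  linarith [hm, h11]

end Pool.Agent.W696.NT.ES
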